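import Mathlib

/-!
# Two-colour blowup Ramsey numbers of `K_6` versus `K_3`: the bound `n(t) ≤ 64 t² 8ᵗ`

Every 2-colouring of the edges of `K_6[n]` with `n ≥ 64 t² 8ᵗ` contains a canonical
monochromatic `K_3[t]`.  The proof: by averaging, some `t`-set `M` in the last part has, in one
colour `k`, common neighbourhoods `W_a, W_b, W_c` in three other parts with
`|W_a| |W_b| |W_c| ≥ n³ / (2 8ᵗ)`.  If there is no canonical copy, no pair among `W_a, W_b, W_c`
contains a `K_{t,t}` of colour `k`, so both pairs at the smallest set `W_a` are sparse in colour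
`k`; the thresholds `x = (t/|W_b|)^{1/t}`, `y = (t/|W_c|)^{1/t}` satisfy `x + y ≤ 1/2`.  A second
averaging inside `W_a` then gives a `t`-set joined in the other colour to large subsets of
`W_b` and `W_c`, and a monochromatic `K_{t,t}` between these finishes the proof.
-/

open Finset

namespace Pool.Agent.Results.MP_fce458_co.BaseEight

/-- `C(k,t) c^t ≥ C(c,t) (k-t)^t`. -/
theorem choose_pow_ge (k c t : ℕ) : c.choose t * (k - t) ^ t ≤ k.choose t * c ^ t := by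
  have h1 : (k - t) ^ t ≤ k.descFactorial t :=
    le_trans (Nat.pow_le_pow_left (by omega) t) (Nat.pow_sub_le_descFactorial k t)
  have h2 : c.descFactorial t ≤ c ^ t := Nat.descFactorial_le_pow c t
  rw [Nat.descFactorial_eq_factorial_mul_choose] at h1 h2
  have h3 : 0 < Nat.factorial t := Nat.factorial_pos t
  have h4 : (Nat.factorial t * c.choose t) * (k - t) ^ t ≤
      c ^ t * (Nat.factorial t * k.choose t) := Nat.mul_le_mul h2 h1
  have h5 : Nat.factorial t * (c.choose t * (k - t) ^ t) ≤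
      Nat.factorial t * (k.choose t * c ^ t) := by nlinarith [h4]
  exact Nat.le_of_mul_le_mul_left h5 h3

/-- The averaging lemma. -/
theorem lemmaX {α β : Type*} [DecidableEq α] [DecidableEq β] (C : Finset α) (Y : Finset β)
    (R : α → β → Prop) [∀ x y, Decidable (R x y)] (t : ℕ) (σ : ℝ) (ht : 0 < t)
    (hc : t ≤ C.card) (hσ : (t : ℝ) ≤ σ * C.card)
    (hsum : σ * C.card * Y.card ≤ ∑ y ∈ Y, ((C.filter (fun x => R x y)).card : ℝ)) :
    ∃ M ⊆ C, M.card = t ∧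
      (σ - t / C.card) ^ t * Y.card ≤ ((Y.filter (fun y => ∀ x ∈ M, R x y)).card : ℝ) := by
  classical
  have hcpos : (0 : ℝ) < C.card := by
    have : 0 < C.card := lt_of_lt_of_le ht hc
    exact_mod_cast this
  -- double count
  have hdc : ∑ M ∈ C.powersetCard t, ((Y.filter (fun y => ∀ x ∈ M, R x y)).card : ℝ)
      = ∑ y ∈ Y, (((C.filter (fun x => R x y)).card.choose t : ℕ) : ℝ) := by
    have h1 : ∑ M ∈ C.powersetCard t, (Y.filter (fun y => ∀ x ∈ M, R x y)).card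
        = ∑ y ∈ Y, ((C.powersetCard t).filter (fun M => ∀ x ∈ M, R x y)).card := by
      simp only [Finset.card_filter]
      rw [Finset.sum_comm]
    have h2 : ∀ y ∈ Y, ((C.powersetCard t).filter (fun M => ∀ x ∈ M, R x y)).card
        = (C.filter (fun x => R x y)).card.choose t := by
      intro y _
      rw [← Finset.card_powersetCard]
      congr 1
      ext M
      simp only [Finset.mem_filter, Finset.mem_powersetCard, Finset.subset_iff]
      constructor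
      · rintro ⟨⟨h1, h2⟩, h3⟩
        exact ⟨fun x hx => ⟨h1 hx, h3 x hx⟩, h2⟩
      · rintro ⟨h1, h2⟩
        exact ⟨⟨fun x hx => (h1 hx).1, h2⟩, fun x hx => (h1 hx).2⟩
    have h3 : ∑ M ∈ C.powersetCard t, (Y.filter (fun y => ∀ x ∈ M, R x y)).card
        = ∑ y ∈ Y, (C.filter (fun x => R x y)).card.choose t := by
      rw [h1]; exact Finset.sum_congr rfl h2
    exact_mod_cast h3
  -- lower bound of each choose
  have hch : ∀ y ∈ Y, ((C.card.choose t : ℕ) : ℝ) / (C.card : ℝ) ^ t *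
      ((((C.filter (fun x => R x y)).card - t : ℕ) : ℝ)) ^ t
      ≤ (((C.filter (fun x => R x y)).card.choose t : ℕ) : ℝ) := by
    intro y _
    have h := choose_pow_ge (C.filter (fun x => R x y)).card C.card t
    have h' : ((C.card.choose t : ℕ) : ℝ) *
      ((((C.filter (fun x => R x y)).card - t : ℕ) : ℝ)) ^ t
      ≤ (((C.filter (fun x => R x y)).card.choose t : ℕ) : ℝ) * (C.card : ℝ) ^ t := by
      exact_mod_cast h
    rw [div_mul_eq_mul_div, div_le_iff₀ (by positivity)]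
    exact h'
  -- power mean
  have hpm : (σ * C.card - t) ^ t * Y.card ≤
      ∑ y ∈ Y, ((((C.filter (fun x => R x y)).card - t : ℕ) : ℝ)) ^ t := by
    rcases Finset.eq_empty_or_nonempty Y with hY | hY
    · subst hY; simp
    · have hYpos : (0 : ℝ) < Y.card := by exact_mod_cast Finset.card_pos.mpr hY
      obtain ⟨s, rfl⟩ : ∃ s, t = s + 1 := ⟨t - 1, by omega⟩
      have h1 := pow_sum_div_card_le_sum_pow (s := Y)
        (f := fun y => ((((C.filter (fun x => R x y)).card - (s + 1) : ℕ) : ℝ)))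
        (fun i _ => by positivity) s
      refine le_trans ?_ h1
      rw [le_div_iff₀ (by positivity)]
      have h2 : (σ * C.card - ((s + 1 : ℕ) : ℝ)) * Y.card ≤
          ∑ y ∈ Y, ((((C.filter (fun x => R x y)).card - (s + 1) : ℕ) : ℝ)) := by
        have h3 : ∀ y ∈ Y, ((C.filter (fun x => R x y)).card : ℝ) - ((s + 1 : ℕ) : ℝ) ≤
            ((((C.filter (fun x => R x y)).card - (s + 1) : ℕ) : ℝ)) := by
          intro y _
          have : (C.filter (fun x => R x y)).card ≤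
            ((C.filter (fun x => R x y)).card - (s + 1)) + (s + 1) := by omega
          have h4 : ((C.filter (fun x => R x y)).card : ℝ) ≤
            ((((C.filter (fun x => R x y)).card - (s + 1) : ℕ) : ℝ)) + ((s + 1 : ℕ) : ℝ) := by
            exact_mod_cast this
          linarith
        have h5 := Finset.sum_le_sum h3
        rw [Finset.sum_sub_distrib, Finset.sum_const, nsmul_eq_mul] at h5
        nlinarith [h5, hsum]
      have h6 : 0 ≤ (σ * C.card - ((s + 1 : ℕ) : ℝ)) * Y.card :=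
        mul_nonneg (by linarith) (by positivity)
      have h7 := pow_le_pow_left₀ h6 h2 (s + 1)
      refine le_trans (le_of_eq ?_) h7
      rw [mul_pow, pow_succ (Y.card : ℝ) s]
      ring
  -- sum over M
  have hfin : ∑ M ∈ C.powersetCard t, ((σ - t / C.card) ^ t * Y.card) ≤
      ∑ M ∈ C.powersetCard t, ((Y.filter (fun y => ∀ x ∈ M, R x y)).card : ℝ) := by
    rw [hdc, Finset.sum_const, Finset.card_powersetCard, nsmul_eq_mul]
    refine le_trans ?_ (Finset.sum_le_sum hch)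
    rw [← Finset.mul_sum]
    refine le_trans (le_of_eq ?_) (mul_le_mul_of_nonneg_left hpm (by positivity))
    have : (σ - t / C.card) ^ t = (σ * C.card - t) ^ t / (C.card : ℝ) ^ t := by
      rw [← div_pow]
      congr 1
      field_simp
    rw [this]
    ring
  have hne : (C.powersetCard t).Nonempty := Finset.powersetCard_nonempty.mpr hc
  obtain ⟨M, hM, hM2⟩ := Finset.exists_le_of_sum_le hne hfin
  rw [Finset.mem_powersetCard] at hM
  exact ⟨M, hM.1, hM.2, hM2⟩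

/-- Bernoulli. -/
theorem bern (σ τ : ℝ) (t : ℕ) (hσ : 0 < σ) (h0 : 0 ≤ τ) (ht : 1 ≤ t) (h : 2 * t * τ ≤ σ) :
    σ ^ t / 2 ≤ (σ - τ) ^ t := by
  have ht' : (1 : ℝ) ≤ t := by exact_mod_cast ht
  have e : (σ - τ) = σ * (1 + (-(τ / σ))) := by field_simp; ring
  have hτσ : τ / σ * (2 * t) ≤ 1 := by
    rw [div_mul_eq_mul_div, div_le_one hσ]; linarith
  have hτ0 : 0 ≤ τ / σ := by positivity
  have h1 : -2 ≤ -(τ / σ) := by nlinarith
  have h2 := one_add_mul_le_pow h1 t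
  rw [e, mul_pow]
  have h3 : (1 : ℝ) / 2 ≤ (1 + -(τ / σ)) ^ t := by
    refine le_trans ?_ h2
    nlinarith
  have h4 : 0 < σ ^ t := by positivity
  calc σ ^ t / 2 = σ ^ t * (1 / 2) := by ring
    _ ≤ σ ^ t * (1 + -(τ / σ)) ^ t := mul_le_mul_of_nonneg_left h3 h4.le

/-- Kővári–Sós–Turán. -/
theorem kst {α β : Type*} [DecidableEq α] [DecidableEq β] (P : Finset α) (Q : Finset β)
    (R : α → β → Prop) [∀ x y, Decidable (R x y)] (t : ℕ) (ρ : ℝ) (ht : 0 < t)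
    (hc : t ≤ P.card) (hρ : (t : ℝ) ≤ ρ * P.card)
    (hsum : ρ * P.card * Q.card ≤ ∑ y ∈ Q, ((P.filter (fun x => R x y)).card : ℝ))
    (hbig : (t : ℝ) ≤ (ρ - t / P.card) ^ t * Q.card) :
    ∃ M ⊆ P, ∃ N ⊆ Q, M.card = t ∧ N.card = t ∧ ∀ x ∈ M, ∀ y ∈ N, R x y := by
  obtain ⟨M, hM, hMt, hN⟩ := lemmaX P Q R t ρ ht hc hρ hsum
  have h1 : (t : ℝ) ≤ ((Q.filter (fun y => ∀ x ∈ M, R x y)).card : ℝ) := le_trans hbig hN
  have h2 : t ≤ (Q.filter (fun y => ∀ x ∈ M, R x y)).card := by exact_mod_cast h1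
  obtain ⟨N, hNsub, hNt⟩ := Finset.exists_subset_card_eq h2
  refine ⟨M, hM, N, fun y hy => (Finset.mem_filter.mp (hNsub hy)).1, hMt, hNt, ?_⟩
  intro x hx y hy
  exact (Finset.mem_filter.mp (hNsub hy)).2 x hx

/-- A two-coloured bipartite graph contains a monochromatic `K_{t,t}`. -/
theorem bipAux {α β : Type*} [DecidableEq α] [DecidableEq β] (P : Finset α) (Q : Finset β)
    (f : α → β → Bool) (t : ℕ) (ht : 1 ≤ t) (hP : (4 * t ^ 2 : ℝ) ≤ P.card)
    (hQ : (2 * t * 2 ^ t : ℝ) ≤ Q.card) :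
    ∃ k : Bool, ∃ A ⊆ P, ∃ B ⊆ Q, A.card = t ∧ B.card = t ∧ ∀ x ∈ A, ∀ y ∈ B, f x y = k := by
  have ht' : (1 : ℝ) ≤ t := by exact_mod_cast ht
  have hPpos : (0 : ℝ) < P.card := by nlinarith
  have hQpos : (0 : ℝ) < Q.card := lt_of_lt_of_le (by positivity) hQ
  have hPt : (t : ℝ) ≤ P.card := by nlinarith
  have hPt' : t ≤ P.card := by exact_mod_cast hPt
  have hsplit : ∑ y ∈ Q, ((P.filter (fun x => f x y = true)).card : ℝ) +
      ∑ y ∈ Q, ((P.filter (fun x => f x y = false)).card : ℝ) = P.card * Q.card := by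
    rw [← Finset.sum_add_distrib]
    have : ∀ y ∈ Q, ((P.filter (fun x => f x y = true)).card : ℝ) +
        ((P.filter (fun x => f x y = false)).card : ℝ) = P.card := by
      intro y _
      have h := Finset.card_filter_add_card_filter_not (s := P) (fun x => f x y = true)
      have h' : (P.filter (fun x => ¬ f x y = true)) = P.filter (fun x => f x y = false) := by
        ext x; simp
      rw [h'] at h
      exact_mod_cast h
    rw [Finset.sum_congr rfl this, Finset.sum_const, nsmul_eq_mul]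
    ring
  have hex : ∃ k : Bool, (1 / 2 : ℝ) * P.card * Q.card ≤
      ∑ y ∈ Q, ((P.filter (fun x => f x y = k)).card : ℝ) := by
    by_contra hcon
    push Not at hcon
    have h1 := hcon true
    have h2 := hcon false
    linarith
  obtain ⟨k, hk⟩ := hex
  refine ⟨k, kst P Q (fun x y => f x y = k) t (1 / 2) ht hPt' ?_ hk ?_⟩
  · nlinarith
  · have hb := bern (1 / 2) (t / P.card) t (by norm_num) (by positivity) ht (by
      rw [mul_div_assoc', div_le_iff₀ hPpos]; nlinarith)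
    have h1 : (t : ℝ) = (1 / 2) ^ t / 2 * (2 * t * 2 ^ t) := by
      rw [one_div, inv_pow]
      field_simp
    calc (t : ℝ) = (1 / 2) ^ t / 2 * (2 * t * 2 ^ t) := h1
      _ ≤ (1 / 2) ^ t / 2 * Q.card := mul_le_mul_of_nonneg_left hQ (by positivity)
      _ ≤ (1 / 2 - t / P.card) ^ t * Q.card := mul_le_mul_of_nonneg_right hb hQpos.le

theorem bip {α β : Type*} [DecidableEq α] [DecidableEq β] (P : Finset α) (Q : Finset β)
    (f : α → β → Bool) (t : ℕ) (ht : 1 ≤ t) (hP : (4 * t ^ 2 : ℝ) ≤ P.card)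
    (hQ : (4 * t ^ 2 : ℝ) ≤ Q.card)
    (hPQ : ((2 * t * 2 ^ t : ℝ)) ^ 2 ≤ P.card * Q.card) :
    ∃ k : Bool, ∃ A ⊆ P, ∃ B ⊆ Q, A.card = t ∧ B.card = t ∧ ∀ x ∈ A, ∀ y ∈ B, f x y = k := by
  have hx0 : (0 : ℝ) ≤ 2 * t * 2 ^ t := by positivity
  rcases le_total (P.card : ℝ) Q.card with h | h
  · refine bipAux P Q f t ht hP ?_
    have hP0 : (0 : ℝ) ≤ P.card := by positivity
    have hQ0 : (0 : ℝ) ≤ Q.card := by positivity
    nlinarith
  · obtain ⟨k, A, hA, B, hB, hAt, hBt, hAB⟩ := bipAux Q P (fun y x => f x y) t ht hQ (by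
      have hP0 : (0 : ℝ) ≤ P.card := by positivity
      have hQ0 : (0 : ℝ) ≤ Q.card := by positivity
      nlinarith)
    exact ⟨k, B, hB, A, hA, hBt, hAt, fun x hx y hy => hAB y hy x hx⟩

theorem xy_half (x y : ℝ) (hx2 : x ^ 2 ≤ 1 / 8) (hxy : x ^ 2 * y ≤ 1 / 64)
    (hle : y ≤ x) : x + y ≤ 1 / 2 := by
  rcases le_or_gt x (1 / 4) with h | h
  · linarith
  · have h1 : 0 ≤ (x - 1 / 4) * (1 + 4 * x - 16 * x ^ 2) := by
      apply mul_nonneg <;> nlinarith
    have h2 : 64 * x ^ 2 * (x + y) ≤ 64 * x ^ 2 * (1 / 2) := by nlinarith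
    have h3 : 0 < 64 * x ^ 2 := by positivity
    exact le_of_mul_le_mul_left h2 h3

/-- Numerical facts used in the core argument, with `S = 2 ^ t`, `T = 8 ^ t = S ^ 3`. -/
theorem numFacts (t w1 w2 w3 n S : ℝ) (ht : 1 ≤ t) (hS : 2 ≤ S) (hn : 64 * t ^ 2 * S ^ 3 ≤ n)
    (h1 : 0 ≤ w1) (h12 : w1 ≤ w2) (h13 : w1 ≤ w3) (h2n : w2 ≤ n) (h3n : w3 ≤ n)
    (hprod : n ^ 3 ≤ 2 * S ^ 3 * (w1 * w2 * w3)) :
    32 * t ^ 2 ≤ w1 ∧ 2048 * t ^ 4 * S ^ 3 ≤ w2 ^ 2 ∧ 2048 * t ^ 4 * S ^ 3 ≤ w3 ^ 2 ∧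
    131072 * t ^ 6 * S ^ 6 ≤ w1 * w2 * w3 ∧ 8 * t ^ 2 * S ^ 3 ≤ w2 * w3 := by
  have hS3 : 0 < S ^ 3 := by positivity
  have ht0 : 0 < t := by linarith
  have hn0 : 0 < n := lt_of_lt_of_le (by positivity) hn
  have h2 : 0 ≤ w2 := le_trans h1 h12
  have h3 : 0 ≤ w3 := le_trans h1 h13
  -- w1
  have a1 : w1 * w2 * w3 ≤ w1 * n * n := by
    apply mul_le_mul (mul_le_mul_of_nonneg_left h2n h1) h3n h3 (by positivity)
  have a2 : n ^ 2 * n ≤ n ^ 2 * (2 * S ^ 3 * w1) := by nlinarith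
  have a3 : n ≤ 2 * S ^ 3 * w1 := le_of_mul_le_mul_left a2 (by positivity)
  have a4 : (2 * S ^ 3) * (32 * t ^ 2) ≤ (2 * S ^ 3) * w1 := by nlinarith
  have a5 : 32 * t ^ 2 ≤ w1 := le_of_mul_le_mul_left a4 (by positivity)
  have hnsq : (64 * t ^ 2 * S ^ 3) ^ 2 ≤ n ^ 2 := pow_le_pow_left₀ (by positivity) hn 2
  have hncu : (64 * t ^ 2 * S ^ 3) ^ 3 ≤ n ^ 3 := pow_le_pow_left₀ (by positivity) hn 3
  -- w2
  have b1 : w1 * w2 * w3 ≤ w2 * w2 * n := by
    apply mul_le_mul (mul_le_mul_of_nonneg_right h12 h2) h3n h3 (by positivity)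
  have b2 : n * n ^ 2 ≤ n * (2 * S ^ 3 * w2 ^ 2) := by nlinarith
  have b3 : n ^ 2 ≤ 2 * S ^ 3 * w2 ^ 2 := le_of_mul_le_mul_left b2 hn0
  have b4 : (2 * S ^ 3) * (2048 * t ^ 4 * S ^ 3) ≤ (2 * S ^ 3) * w2 ^ 2 := by
    refine le_trans (le_trans (le_of_eq ?_) hnsq) b3
    ring
  have b5 : 2048 * t ^ 4 * S ^ 3 ≤ w2 ^ 2 := le_of_mul_le_mul_left b4 (by positivity)
  -- w3
  have c1 : w1 * w2 * w3 ≤ w3 * n * w3 := by
    apply mul_le_mul (mul_le_mul h13 h2n h2 h3) le_rfl h3 (by positivity)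
  have c2 : n * n ^ 2 ≤ n * (2 * S ^ 3 * w3 ^ 2) := by nlinarith
  have c3 : n ^ 2 ≤ 2 * S ^ 3 * w3 ^ 2 := le_of_mul_le_mul_left c2 hn0
  have c4 : (2 * S ^ 3) * (2048 * t ^ 4 * S ^ 3) ≤ (2 * S ^ 3) * w3 ^ 2 := by
    refine le_trans (le_trans (le_of_eq ?_) hnsq) c3
    ring
  have c5 : 2048 * t ^ 4 * S ^ 3 ≤ w3 ^ 2 := le_of_mul_le_mul_left c4 (by positivity)
  -- product
  have d4 : (2 * S ^ 3) * (131072 * t ^ 6 * S ^ 6) ≤ (2 * S ^ 3) * (w1 * w2 * w3) := by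
    refine le_trans (le_trans (le_of_eq ?_) hncu) hprod
    ring
  have d5 : 131072 * t ^ 6 * S ^ 6 ≤ w1 * w2 * w3 := le_of_mul_le_mul_left d4 (by positivity)
  -- w2 w3
  have e1 : w1 ^ 2 ≤ w2 * w3 := by
    rw [sq]; exact mul_le_mul h12 h13 h1 h2
  have e2 : (131072 * t ^ 6 * S ^ 6) ^ 2 ≤ (w2 * w3) ^ 3 := by
    calc (131072 * t ^ 6 * S ^ 6) ^ 2 ≤ (w1 * w2 * w3) ^ 2 := pow_le_pow_left₀ (by positivity) d5 2
      _ = w1 ^ 2 * (w2 * w3) ^ 2 := by ring
      _ ≤ (w2 * w3) * (w2 * w3) ^ 2 := mul_le_mul_of_nonneg_right e1 (by positivity)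
      _ = (w2 * w3) ^ 3 := by ring
  have e3 : (8 * t ^ 2 * S ^ 3) ^ 3 ≤ (131072 * t ^ 6 * S ^ 6) ^ 2 := by
    have t6 : (1 : ℝ) ≤ t ^ 6 := one_le_pow₀ ht
    have s3 : (1 : ℝ) ≤ S ^ 3 := one_le_pow₀ (by linarith)
    have : (131072 * t ^ 6 * S ^ 6) ^ 2 =
      (8 * t ^ 2 * S ^ 3) ^ 3 * (33554432 * (t ^ 6 * S ^ 3)) := by ring
    rw [this]
    have h5 : (1 : ℝ) ≤ t ^ 6 * S ^ 3 := by nlinarith
    exact le_mul_of_one_le_right (by positivity) (by linarith)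
  have e4 : 8 * t ^ 2 * S ^ 3 ≤ w2 * w3 :=
    le_of_pow_le_pow_left₀ (by norm_num : (3 : ℕ) ≠ 0) (by positivity) (le_trans e3 e2)
  exact ⟨a5, b5, c5, d5, e4⟩

/-- If there is no `K_{t,t}` in colour `k` between `W1` and `W2`, then few pairs have
colour `k`. -/
theorem fewEdges {α β : Type*} [DecidableEq α] [DecidableEq β] (W1 : Finset α) (W2 : Finset β)
    (f : α → β → Bool) (k : Bool) (t : ℕ) (ht : 1 ≤ t) (x : ℝ) (hx : 0 ≤ x)
    (hw1 : t ≤ W1.card) (hxt : (t : ℝ) ≤ x ^ t * W2.card)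
    (hno : ¬ ∃ A ⊆ W1, ∃ B ⊆ W2, A.card = t ∧ B.card = t ∧ ∀ u ∈ A, ∀ v ∈ B, f u v = k) :
    ∑ v ∈ W2, ((W1.filter (fun u => f u v = k)).card : ℝ) ≤
      (x + t / W1.card) * W1.card * W2.card := by
  by_contra hcon
  push Not at hcon
  apply hno
  have hpos : (0 : ℝ) < W1.card := by
    have : 0 < W1.card := lt_of_lt_of_le ht hw1
    exact_mod_cast this
  refine kst W1 W2 (fun u v => f u v = k) t (x + t / W1.card) ht hw1 ?_ hcon.le ?_
  · have : (x + t / W1.card) * W1.card = x * W1.card + t := by field_simp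
    rw [this]
    have : 0 ≤ x * W1.card := by positivity
    linarith
  · have : x + t / W1.card - t / W1.card = x := by ring
    rw [this]
    exact hxt

theorem aux1 (t S : ℝ) (ht : 1 ≤ t) (hS : 0 ≤ S) : t ^ 2 * S * 1 ≤ 1 * (2048 * t ^ 4 * S) := by
  have h1 : (1 : ℝ) ≤ t ^ 2 := one_le_pow₀ ht
  have h2 : t ^ 2 ≤ 2048 * t ^ 4 := by nlinarith
  have := mul_le_mul_of_nonneg_right h2 hS
  linarith

theorem aux2 (t S : ℝ) (ht : 1 ≤ t) (hS : 0 ≤ S) : t ^ 3 * S ≤ 131072 * t ^ 6 * S := by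
  have h1 : (1 : ℝ) ≤ t ^ 3 := one_le_pow₀ ht
  have h2 : t ^ 3 ≤ 131072 * t ^ 6 := by nlinarith
  exact mul_le_mul_of_nonneg_right h2 hS

theorem aux3 (w1 w2 w3 : ℝ) (h : w1 ≤ w3) (h2 : 0 ≤ w2) (h3 : 0 ≤ w3) :
    w1 * w2 * w3 ≤ w3 ^ 2 * w2 := by
  have := mul_le_mul_of_nonneg_right (mul_le_mul_of_nonneg_right h h3) h2
  linarith

theorem aux4 (w1 w2 w3 E2 E3 x y t : ℝ)
    (h1 : w3 * E2 ≤ w3 * ((x * w1 + t) * w2)) (h2 : w2 * E3 ≤ w2 * ((y * w1 + t) * w3))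
    (h3 : (x + y) * (w1 * w2 * w3) ≤ 1 / 2 * (w1 * w2 * w3)) :
    (w1 / 2 - 2 * t) * (w2 * w3) ≤ w2 * (w3 * w1) - w3 * E2 - w2 * E3 := by
  nlinarith

theorem aux5 (t w1 : ℝ) (ht : 1 ≤ t) (h : 32 * t ^ 2 ≤ w1) :
    t ≤ w1 ∧ 3 * t ≤ w1 / 2 ∧ 2 * t * (3 * t) ≤ 1 / 2 * w1 := by
  refine ⟨?_, ?_, ?_⟩ <;> nlinarith

theorem aux6 (w2 w3 n2 n3 S : ℝ) (hS : 0 ≤ S) (h2 : 0 ≤ n2) (h3 : n3 ≤ w3) (hw : 0 < w3)
    (h : w2 * w3 ≤ 2 * S * (n2 * n3)) : w2 ≤ 2 * S * n2 := by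
  have h4 : w3 * w2 ≤ w3 * (2 * S * n2) := by
    have := mul_le_mul_of_nonneg_left h3 (by positivity : (0 : ℝ) ≤ 2 * S * n2)
    nlinarith
  exact le_of_mul_le_mul_left h4 hw

theorem aux7 (t S w n2 : ℝ) (hS : 2 ≤ S) (hn : 0 ≤ n2) (hw : 0 ≤ w)
    (h : w ≤ 2 * S * n2) (h2 : 2048 * t ^ 4 * S ^ 3 ≤ w ^ 2) : 4 * t ^ 2 ≤ n2 := by
  refine le_of_pow_le_pow_left₀ (by norm_num : (2 : ℕ) ≠ 0) hn ?_
  have h1 : w ^ 2 ≤ (2 * S * n2) ^ 2 := pow_le_pow_left₀ hw h 2
  have h3 : (4 * S ^ 2) * ((4 * t ^ 2) ^ 2) ≤ (4 * S ^ 2) * (n2 ^ 2) := by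
    have h3 : (4 * S ^ 2) * ((4 * t ^ 2) ^ 2) ≤ 2048 * t ^ 4 * S ^ 3 := by
      have h0 : 0 ≤ t ^ 4 * S ^ 2 := by positivity
      nlinarith
    have h4 : (2 * S * n2) ^ 2 = (4 * S ^ 2) * (n2 ^ 2) := by ring
    linarith
  exact le_of_mul_le_mul_left h3 (by positivity)

theorem core {α : Type*} [DecidableEq α] (W1 W2 W3 : Finset α) (f12 f13 f23 : α → α → Bool)
    (k : Bool) (t n : ℕ) (ht : 1 ≤ t) (hn : 64 * t ^ 2 * 8 ^ t ≤ n)
    (h12 : W1.card ≤ W2.card) (h13 : W1.card ≤ W3.card) (h2n : W2.card ≤ n) (h3n : W3.card ≤ n)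
    (hprod : ((n : ℝ)) ^ 3 ≤ 2 * 8 ^ t * ((W1.card : ℝ) * W2.card * W3.card))
    (no12 : ¬ ∃ A ⊆ W1, ∃ B ⊆ W2, A.card = t ∧ B.card = t ∧ ∀ u ∈ A, ∀ v ∈ B, f12 u v = k)
    (no13 : ¬ ∃ A ⊆ W1, ∃ B ⊆ W3, A.card = t ∧ B.card = t ∧ ∀ u ∈ A, ∀ v ∈ B, f13 u v = k)
    (no23 : ¬ ∃ A ⊆ W2, ∃ B ⊆ W3, A.card = t ∧ B.card = t ∧ ∀ u ∈ A, ∀ v ∈ B, f23 u v = k) :
    ∃ A ⊆ W1, ∃ B ⊆ W2, ∃ C ⊆ W3, A.card = t ∧ B.card = t ∧ C.card = t ∧
      (∀ u ∈ A, ∀ v ∈ B, f12 u v = !k) ∧ (∀ u ∈ A, ∀ v ∈ C, f13 u v = !k) ∧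
      (∀ u ∈ B, ∀ v ∈ C, f23 u v = !k) := by
  have ht' : (1 : ℝ) ≤ t := by exact_mod_cast ht
  have ht0 : (t : ℝ) ≠ 0 := by positivity
  have hS : (2 : ℝ) ≤ 2 ^ t := by
    calc (2 : ℝ) = 2 ^ 1 := by norm_num
      _ ≤ 2 ^ t := pow_le_pow_right₀ (by norm_num) ht
  have h8 : (8 : ℝ) ^ t = (2 ^ t) ^ 3 := by
    rw [← pow_mul, mul_comm, pow_mul]; norm_num
  have hn' : 64 * (t : ℝ) ^ 2 * ((2 : ℝ) ^ t) ^ 3 ≤ n := by
    rw [← h8]; exact_mod_cast hn
  have h12' : (W1.card : ℝ) ≤ W2.card := by exact_mod_cast h12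
  have h13' : (W1.card : ℝ) ≤ W3.card := by exact_mod_cast h13
  have h2n' : (W2.card : ℝ) ≤ n := by exact_mod_cast h2n
  have h3n' : (W3.card : ℝ) ≤ n := by exact_mod_cast h3n
  rw [h8] at hprod
  obtain ⟨f1, f2, f3, f4, f5⟩ := numFacts t W1.card W2.card W3.card n (2 ^ t) ht' hS hn'
    (by positivity) h12' h13' h2n' h3n' hprod
  set S : ℝ := (2 : ℝ) ^ t with hSdef
  have hS0 : 0 < S := by linarith
  have w1pos : (0 : ℝ) < W1.card := lt_of_lt_of_le (by positivity) f1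
  have w2pos : (0 : ℝ) < W2.card := lt_of_lt_of_le w1pos h12'
  have w3pos : (0 : ℝ) < W3.card := lt_of_lt_of_le w1pos h13'
  have hw1t : t ≤ W1.card := by
    have : (t : ℝ) ≤ W1.card := (aux5 t W1.card ht' f1).1
    exact_mod_cast this
  -- the thresholds x and y
  obtain ⟨x, hx0, hxt⟩ : ∃ x : ℝ, 0 ≤ x ∧ x ^ t = t / W2.card :=
    ⟨((t : ℝ) / W2.card) ^ ((1 : ℝ) / t), by positivity, by
      rw [← Real.rpow_natCast, ← Real.rpow_mul (by positivity), one_div,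
        inv_mul_cancel₀ ht0, Real.rpow_one]⟩
  obtain ⟨y, hy0, hyt⟩ : ∃ y : ℝ, 0 ≤ y ∧ y ^ t = t / W3.card :=
    ⟨((t : ℝ) / W3.card) ^ ((1 : ℝ) / t), by positivity, by
      rw [← Real.rpow_natCast, ← Real.rpow_mul (by positivity), one_div,
        inv_mul_cancel₀ ht0, Real.rpow_one]⟩
  have htne : t ≠ 0 := by omega
  have e8 : ((1 : ℝ) / 8) ^ t = 1 / S ^ 3 := by rw [div_pow, one_pow, h8]
  have e64 : ((1 : ℝ) / 64) ^ t = 1 / S ^ 6 := by
    have : (64 : ℝ) ^ t = S ^ 6 := by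
      rw [hSdef, ← pow_mul, mul_comm, pow_mul]; norm_num
    rw [div_pow, one_pow, this]
  have hx2 : x ^ 2 ≤ 1 / 8 := by
    refine le_of_pow_le_pow_left₀ htne (by norm_num) ?_
    rw [← pow_mul, mul_comm, pow_mul, hxt, e8, div_pow, div_le_div_iff₀ (by positivity)
      (by positivity)]
    have := aux1 t (S ^ 3) ht' (by positivity)
    linarith
  have hy2 : y ^ 2 ≤ 1 / 8 := by
    refine le_of_pow_le_pow_left₀ htne (by norm_num) ?_
    rw [← pow_mul, mul_comm, pow_mul, hyt, e8, div_pow, div_le_div_iff₀ (by positivity)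
      (by positivity)]
    have := aux1 t (S ^ 3) ht' (by positivity)
    linarith
  have ht36 : (t : ℝ) ^ 3 * S ^ 6 ≤ 131072 * (t : ℝ) ^ 6 * S ^ 6 :=
    aux2 t (S ^ 6) ht' (by positivity)
  have hxy1 : x ^ 2 * y ≤ 1 / 64 := by
    refine le_of_pow_le_pow_left₀ htne (by norm_num) ?_
    rw [mul_pow, ← pow_mul, mul_comm 2 t, pow_mul, hxt, hyt, e64, div_pow, div_mul_div_comm,
      div_le_div_iff₀ (by positivity) (by positivity)]
    have : (W1.card : ℝ) * W2.card * W3.card ≤ (W2.card : ℝ) ^ 2 * W3.card := by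
      rw [sq]
      exact mul_le_mul_of_nonneg_right (mul_le_mul_of_nonneg_right h12' w2pos.le) w3pos.le
    have e : (t : ℝ) ^ 2 * t * S ^ 6 = (t : ℝ) ^ 3 * S ^ 6 := by ring
    rw [e]
    linarith
  have hxy2 : y ^ 2 * x ≤ 1 / 64 := by
    refine le_of_pow_le_pow_left₀ htne (by norm_num) ?_
    rw [mul_pow, ← pow_mul, mul_comm 2 t, pow_mul, hxt, hyt, e64, div_pow, div_mul_div_comm,
      div_le_div_iff₀ (by positivity) (by positivity)]
    have : (W1.card : ℝ) * W2.card * W3.card ≤ (W3.card : ℝ) ^ 2 * W2.card :=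
      aux3 _ _ _ h13' w2pos.le w3pos.le
    have e : (t : ℝ) ^ 2 * t * S ^ 6 = (t : ℝ) ^ 3 * S ^ 6 := by ring
    rw [e]
    linarith
  have hxy : x + y ≤ 1 / 2 := by
    rcases le_total y x with h | h
    · exact xy_half x y hx2 hxy1 h
    · have := xy_half y x hy2 hxy2 h
      linarith
  -- few edges of colour k
  have E12 := fewEdges W1 W2 f12 k t ht x hx0 hw1t (by rw [hxt]; field_simp; exact le_rfl) no12
  have E13 := fewEdges W1 W3 f13 k t ht y hy0 hw1t (by rw [hyt]; field_simp; exact le_rfl) no13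
  -- many cherries in the other colour
  have hmany : (1 / 2 - 2 * t / (W1.card : ℝ)) * W1.card * ((W2 ×ˢ W3).card : ℕ) ≤
      ∑ p ∈ W2 ×ˢ W3, ((W1.filter (fun u => f12 u p.1 = !k ∧ f13 u p.2 = !k)).card : ℝ) := by
    have hpt : ∀ p ∈ W2 ×ˢ W3, (W1.card : ℝ) - ((W1.filter (fun u => f12 u p.1 = k)).card : ℝ)
        - ((W1.filter (fun u => f13 u p.2 = k)).card : ℝ) ≤
        ((W1.filter (fun u => f12 u p.1 = !k ∧ f13 u p.2 = !k)).card : ℝ) := by
      intro p _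
      have hsub : W1 ⊆ (W1.filter (fun u => f12 u p.1 = k)) ∪
          ((W1.filter (fun u => f13 u p.2 = k)) ∪
          (W1.filter (fun u => f12 u p.1 = !k ∧ f13 u p.2 = !k))) := by
        intro u hu
        simp only [Finset.mem_union, Finset.mem_filter]
        cases f12 u p.1 <;> cases f13 u p.2 <;> cases k <;> simp [hu]
      have h1 := Finset.card_le_card hsub
      have h2 := Finset.card_union_le (W1.filter (fun u => f12 u p.1 = k))
          ((W1.filter (fun u => f13 u p.2 = k)) ∪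
          (W1.filter (fun u => f12 u p.1 = !k ∧ f13 u p.2 = !k)))
      have h3 := Finset.card_union_le (W1.filter (fun u => f13 u p.2 = k))
          (W1.filter (fun u => f12 u p.1 = !k ∧ f13 u p.2 = !k))
      have h4 : W1.card ≤ (W1.filter (fun u => f12 u p.1 = k)).card +
          ((W1.filter (fun u => f13 u p.2 = k)).card +
          (W1.filter (fun u => f12 u p.1 = !k ∧ f13 u p.2 = !k)).card) := by omega
      have h5 : (W1.card : ℝ) ≤ ((W1.filter (fun u => f12 u p.1 = k)).card : ℝ) +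
          (((W1.filter (fun u => f13 u p.2 = k)).card : ℝ) +
          ((W1.filter (fun u => f12 u p.1 = !k ∧ f13 u p.2 = !k)).card : ℝ)) := by
        exact_mod_cast h4
      linarith
    refine le_trans ?_ (Finset.sum_le_sum hpt)
    rw [Finset.sum_sub_distrib, Finset.sum_sub_distrib, Finset.sum_product, Finset.sum_product,
      Finset.sum_product]
    simp only [Finset.sum_const, nsmul_eq_mul]
    rw [← Finset.mul_sum, Finset.card_product]
    push_cast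
    have g1 : (1 / 2 - 2 * (t : ℝ) / (W1.card : ℝ)) * W1.card = W1.card / 2 - 2 * t := by
      field_simp
    have g2 : (x + t / (W1.card : ℝ)) * W1.card = x * W1.card + t := by field_simp
    have g3 : (y + t / (W1.card : ℝ)) * W1.card = y * W1.card + t := by field_simp
    rw [g2] at E12
    rw [g3] at E13
    rw [g1]
    have E12' := mul_le_mul_of_nonneg_left E12 w3pos.le
    have E13' := mul_le_mul_of_nonneg_left E13 w2pos.le
    have hww : 0 ≤ (W1.card : ℝ) * W2.card * W3.card := by positivity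
    have hfin := mul_le_mul_of_nonneg_right hxy hww
    exact aux4 _ _ _ _ _ _ _ _ E12' E13' hfin
  -- apply the averaging lemma
  have w1six : (3 : ℝ) * t ≤ W1.card / 2 := (aux5 t W1.card ht' f1).2.1
  obtain ⟨M, hM, hMt, hMN⟩ := lemmaX W1 (W2 ×ˢ W3)
    (fun u p => f12 u p.1 = !k ∧ f13 u p.2 = !k) t (1 / 2 - 2 * t / (W1.card : ℝ)) ht hw1t
    (by
      have g1 : (1 / 2 - 2 * (t : ℝ) / (W1.card : ℝ)) * W1.card = W1.card / 2 - 2 * t := by
        field_simp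
      rw [g1]; linarith) hmany
  set N2 := W2.filter (fun v => ∀ u ∈ M, f12 u v = !k) with hN2
  set N3 := W3.filter (fun v => ∀ u ∈ M, f13 u v = !k) with hN3
  have hNprod : (W2 ×ˢ W3).filter (fun p => ∀ u ∈ M, f12 u p.1 = !k ∧ f13 u p.2 = !k)
      = N2 ×ˢ N3 := by
    ext p
    simp only [Finset.mem_filter, Finset.mem_product, hN2, hN3]
    constructor
    · rintro ⟨⟨h1, h2⟩, h3⟩
      exact ⟨⟨h1, fun u hu => (h3 u hu).1⟩, ⟨h2, fun u hu => (h3 u hu).2⟩⟩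
    · rintro ⟨⟨h1, h2⟩, ⟨h3, h4⟩⟩
      exact ⟨⟨h1, h3⟩, fun u hu => ⟨h2 u hu, h4 u hu⟩⟩
  rw [hNprod, Finset.card_product, Finset.card_product] at hMN
  push_cast at hMN
  have hshift : 1 / 2 - 2 * (t : ℝ) / (W1.card : ℝ) - t / (W1.card : ℝ)
      = 1 / 2 - 3 * t / (W1.card : ℝ) := by ring
  rw [hshift] at hMN
  have hb := bern (1 / 2) (3 * t / (W1.card : ℝ)) t (by norm_num) (by positivity) ht (by
    rw [mul_div_assoc', div_le_iff₀ w1pos]; exact (aux5 t W1.card ht' f1).2.2)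
  have hhalf : ((1 : ℝ) / 2) ^ t = 1 / S := by rw [div_pow, one_pow]
  rw [hhalf] at hb
  have hN : 1 / S / 2 * ((W2.card : ℝ) * W3.card) ≤ (N2.card : ℝ) * N3.card :=
    le_trans (mul_le_mul_of_nonneg_right hb (by positivity)) hMN
  have hN' : (W2.card : ℝ) * W3.card ≤ 2 * S * ((N2.card : ℝ) * N3.card) := by
    have := mul_le_mul_of_nonneg_left hN (by positivity : (0 : ℝ) ≤ 2 * S)
    refine le_trans (le_of_eq ?_) this
    field_simp
  have hN2W : (N2.card : ℝ) ≤ W2.card := by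
    exact_mod_cast Finset.card_filter_le _ _
  have hN3W : (N3.card : ℝ) ≤ W3.card := by
    exact_mod_cast Finset.card_filter_le _ _
  have hN20 : (0 : ℝ) ≤ N2.card := by positivity
  have hN30 : (0 : ℝ) ≤ N3.card := by positivity
  have q2 : (W2.card : ℝ) ≤ 2 * S * N2.card :=
    aux6 _ _ _ _ _ hS0.le hN20 hN3W w3pos hN'
  have q3 : (W3.card : ℝ) ≤ 2 * S * N3.card :=
    aux6 _ _ _ _ _ hS0.le hN30 hN2W w2pos
      (le_trans (le_of_eq (by ring)) (le_trans hN' (le_of_eq (by ring))))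
  have r2 : (4 * t ^ 2 : ℝ) ≤ N2.card := aux7 t S _ _ hS hN20 w2pos.le q2 f2
  have r3 : (4 * t ^ 2 : ℝ) ≤ N3.card := aux7 t S _ _ hS hN30 w3pos.le q3 f3
  have r23 : ((2 * t * 2 ^ t : ℝ)) ^ 2 ≤ N2.card * N3.card := by
    rw [← hSdef]
    have h1 : (2 * S) * ((2 * t * S) ^ 2) ≤ (2 * S) * ((N2.card : ℝ) * N3.card) := by
      have : (2 * S) * ((2 * t * S) ^ 2) = 8 * (t : ℝ) ^ 2 * S ^ 3 := by ring
      linarith
    exact le_of_mul_le_mul_left h1 (by positivity)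
  obtain ⟨c, B, hB, C, hC, hBt, hCt, hBC⟩ := bip N2 N3 f23 t ht r2 r3 r23
  have hBW : B ⊆ W2 := fun v hv => (Finset.mem_filter.mp (hB hv)).1
  have hCW : C ⊆ W3 := fun v hv => (Finset.mem_filter.mp (hC hv)).1
  have hck : c = !k := by
    by_contra hne
    have : c = k := by cases c <;> cases k <;> simp_all
    subst this
    exact no23 ⟨B, hBW, C, hCW, hBt, hCt, hBC⟩
  subst hck
  exact ⟨M, hM, B, hBW, C, hCW, hMt, hBt, hCt,
    fun u hu v hv => (Finset.mem_filter.mp (hB hv)).2 u hu,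
    fun u hu v hv => (Finset.mem_filter.mp (hC hv)).2 u hu, hBC⟩

theorem threeEqual (v : Fin 5 → Bool) :
    ∃ i j l : Fin 5, i ≠ j ∧ i ≠ l ∧ j ≠ l ∧ v i = v j ∧ v i = v l := by
  revert v
  decide

/-- The first step: a `t`-set in one part with large common neighbourhoods, in a single colour,
in three other parts. -/
theorem step1 (n t : ℕ) (ht : 1 ≤ t) (hn : 64 * t ^ 2 * 8 ^ t ≤ n)
    (g : Fin 5 → Fin n → Fin n → Bool) :
    ∃ i j l : Fin 5, ∃ k : Bool, ∃ M : Finset (Fin n), i ≠ j ∧ i ≠ l ∧ j ≠ l ∧ M.card = t ∧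
      ((n : ℝ)) ^ 3 ≤ 2 * 8 ^ t *
        (((univ.filter (fun y : Fin n => ∀ x ∈ M, g i x y = k)).card : ℝ) *
          (univ.filter (fun y : Fin n => ∀ x ∈ M, g j x y = k)).card *
          (univ.filter (fun y : Fin n => ∀ x ∈ M, g l x y = k)).card) := by
  classical
  have hmaj : ∀ x : Fin n, ∀ i : Fin 5, ∃ k : Bool,
      n ≤ 2 * (univ.filter (fun y : Fin n => g i x y = k)).card := by
    intro x i
    by_contra hcon
    push Not at hcon
    have h1 := hcon true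
    have h2 := hcon false
    have h := Finset.card_filter_add_card_filter_not (s := (univ : Finset (Fin n)))
      (fun y => g i x y = true)
    have h' : ((univ : Finset (Fin n)).filter (fun y => ¬ g i x y = true)) =
      univ.filter (fun y => g i x y = false) := by
        ext y; simp
    rw [h', Finset.card_univ, Fintype.card_fin] at h
    omega
  choose maj hmaj using hmaj
  have hpig : ∃ v : Fin 5 → Bool, 2 * t ^ 2 * 8 ^ t ≤
      (univ.filter (fun x : Fin n => maj x = v)).card := by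
    have := Fintype.exists_le_card_fiber_of_mul_le_card (f := maj)
      (n := 2 * t ^ 2 * 8 ^ t) (by
        simp only [Fintype.card_fin, Fintype.card_pi, Fintype.card_bool, Finset.prod_const,
          Finset.card_univ]
        nlinarith)
    exact this
  obtain ⟨v, hv⟩ := hpig
  obtain ⟨i, j, l, hij, hil, hjl, eij, eil⟩ := threeEqual v
  set C := univ.filter (fun x : Fin n => maj x = v) with hC
  set k := v i with hk
  have hS : 8 ≤ 8 ^ t := by
    calc 8 = 8 ^ 1 := by norm_num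
      _ ≤ 8 ^ t := Nat.pow_le_pow_right (by norm_num) ht
  have hC16 : 16 * t ^ 2 ≤ C.card := by
    refine le_trans ?_ hv
    nlinarith [Nat.mul_le_mul_left (2 * t ^ 2) hS]
  have hC16' : (16 : ℝ) * t ^ 2 ≤ C.card := by exact_mod_cast hC16
  have ht' : (1 : ℝ) ≤ t := by exact_mod_cast ht
  have hCpos : (0 : ℝ) < C.card := by nlinarith
  have hCt : (8 : ℝ) * t ≤ C.card := by nlinarith
  have hCt' : t ≤ C.card := by
    have : (t : ℝ) ≤ C.card := by linarith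
    exact_mod_cast this
  -- degrees
  have hdeg : ∀ x ∈ C, ∀ r : Fin 5, v r = k →
      (n : ℝ) / 2 ≤ ((univ.filter (fun y : Fin n => g r x y = k)).card : ℝ) := by
    intro x hx r hr
    have h1 := hmaj x r
    have h2 : maj x = v := (Finset.mem_filter.mp hx).2
    rw [h2, hr] at h1
    have h3 : (n : ℝ) ≤ 2 * ((univ.filter (fun y : Fin n => g r x y = k)).card : ℝ) := by
      exact_mod_cast h1
    linarith
  have hsum : (1 / 8 : ℝ) * C.card * ((univ : Finset (Fin n × Fin n × Fin n)).card : ℕ) ≤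
      ∑ y ∈ (univ : Finset (Fin n × Fin n × Fin n)),
        ((C.filter (fun x => g i x y.1 = k ∧ g j x y.2.1 = k ∧ g l x y.2.2 = k)).card : ℝ) := by
    have hsw : ∑ y ∈ (univ : Finset (Fin n × Fin n × Fin n)),
        ((C.filter (fun x => g i x y.1 = k ∧ g j x y.2.1 = k ∧ g l x y.2.2 = k)).card : ℝ) =
        ∑ x ∈ C, ((univ.filter (fun y : Fin n × Fin n × Fin n =>
          g i x y.1 = k ∧ g j x y.2.1 = k ∧ g l x y.2.2 = k)).card : ℝ) := by
      simp only [Finset.card_filter, Nat.cast_sum]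
      rw [Finset.sum_comm]
    rw [hsw]
    have hx : ∀ x ∈ C, (n : ℝ) / 2 * (n / 2) * (n / 2) ≤
        ((univ.filter (fun y : Fin n × Fin n × Fin n =>
          g i x y.1 = k ∧ g j x y.2.1 = k ∧ g l x y.2.2 = k)).card : ℝ) := by
      intro x hx
      have e : univ.filter (fun y : Fin n × Fin n × Fin n =>
          g i x y.1 = k ∧ g j x y.2.1 = k ∧ g l x y.2.2 = k) =
          (univ.filter (fun y : Fin n => g i x y = k)) ×ˢ
          ((univ.filter (fun y : Fin n => g j x y = k)) ×ˢ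
          (univ.filter (fun y : Fin n => g l x y = k))) := by
        ext y
        simp only [Finset.mem_filter, Finset.mem_product, Finset.mem_univ, true_and]
      rw [e, Finset.card_product, Finset.card_product]
      push_cast
      have h1 := hdeg x hx i rfl
      have h2 := hdeg x hx j (by rw [← eij])
      have h3 := hdeg x hx l (by rw [← eil])
      have hn0 : (0 : ℝ) ≤ n / 2 := by positivity
      rw [← mul_assoc]
      exact mul_le_mul (mul_le_mul h1 h2 hn0 (by positivity)) h3 hn0 (by positivity)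
    refine le_trans ?_ (Finset.sum_le_sum hx)
    rw [Finset.sum_const, nsmul_eq_mul]
    simp only [Finset.card_univ, Fintype.card_prod, Fintype.card_fin]
    push_cast
    apply le_of_eq
    ring
  obtain ⟨M, hM, hMt, hMN⟩ := lemmaX C (univ : Finset (Fin n × Fin n × Fin n))
    (fun x y => g i x y.1 = k ∧ g j x y.2.1 = k ∧ g l x y.2.2 = k) t (1 / 8) ht hCt'
    (by linarith) hsum
  refine ⟨i, j, l, k, M, hij, hil, hjl, hMt, ?_⟩
  replace hMN : (1 / 8 - (t : ℝ) / (C.card : ℝ)) ^ t *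
      (((univ : Finset (Fin n × Fin n × Fin n)).card : ℕ) : ℝ) ≤
      (((univ.filter (fun y : Fin n => ∀ x ∈ M, g i x y = k)) ×ˢ
      ((univ.filter (fun y : Fin n => ∀ x ∈ M, g j x y = k)) ×ˢ
      (univ.filter (fun y : Fin n => ∀ x ∈ M, g l x y = k)))).card : ℝ) := by
    refine le_trans hMN (le_of_eq ?_)
    congr 2
    ext y
    simp only [Finset.mem_filter, Finset.mem_product, Finset.mem_univ, true_and]
    constructor
    · intro h
      exact ⟨fun x hx => (h x hx).1, fun x hx => (h x hx).2.1, fun x hx => (h x hx).2.2⟩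
    · rintro ⟨h1, h2, h3⟩ x hx
      exact ⟨h1 x hx, h2 x hx, h3 x hx⟩
  rw [Finset.card_product, Finset.card_product] at hMN
  simp only [Finset.card_univ, Fintype.card_prod, Fintype.card_fin] at hMN
  push_cast at hMN
  have hb := bern (1 / 8) (t / (C.card : ℝ)) t (by norm_num) (by positivity) ht (by
    rw [mul_div_assoc', div_le_iff₀ hCpos]; nlinarith)
  have e8 : ((1 : ℝ) / 8) ^ t = 1 / 8 ^ t := by rw [div_pow, one_pow]
  rw [e8] at hb
  have h1 := le_trans (mul_le_mul_of_nonneg_right hb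
    (by positivity : (0 : ℝ) ≤ (n : ℝ) * ((n : ℝ) * n))) hMN
  have h2 := mul_le_mul_of_nonneg_left h1 (by positivity : (0 : ℝ) ≤ 2 * 8 ^ t)
  refine le_trans (le_of_eq ?_) (le_trans h2 (le_of_eq ?_))
  · field_simp
  · ring

/-- The graph `K_6[n]`: the complete `6`-partite graph with parts `{i} × Fin n`. -/
def K6blowup (n : ℕ) : SimpleGraph (Fin 6 × Fin n) where
  Adj u v := u.1 ≠ v.1
  symm := ⟨fun _ _ h => h.symm⟩
  loopless := ⟨fun _ h => h rfl⟩

/-- The colouring `χ` of the edges of `K_6[n]` has a canonical monochromatic `K_3[t]`. -/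
def HasCanonicalMono (n t : ℕ) (χ : (K6blowup n).edgeSet → Bool) : Prop :=
  ∃ a b c : Fin 6, a ≠ b ∧ a ≠ c ∧ b ≠ c ∧
    ∃ A B C : Finset (Fin n), A.card = t ∧ B.card = t ∧ C.card = t ∧
      ∃ k : Bool,
        (∀ x ∈ A, ∀ y ∈ B, ∀ h : s((a, x), (b, y)) ∈ (K6blowup n).edgeSet, χ ⟨_, h⟩ = k) ∧
        (∀ x ∈ A, ∀ y ∈ C, ∀ h : s((a, x), (c, y)) ∈ (K6blowup n).edgeSet, χ ⟨_, h⟩ = k) ∧
        (∀ x ∈ B, ∀ y ∈ C, ∀ h : s((b, x), (c, y)) ∈ (K6blowup n).edgeSet, χ ⟨_, h⟩ = k)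

/-- Every 2-colouring of the edges of `K_6[n]` has a canonical monochromatic `K_3[t]`. -/
def Forces (n t : ℕ) : Prop :=
  ∀ χ : (K6blowup n).edgeSet → Bool, HasCanonicalMono n t χ

/-- The number `n(t)`. -/
noncomputable def blowupRamsey (t : ℕ) : ℕ := sInf {n : ℕ | 1 ≤ n ∧ Forces n t}

/-- Version for a symmetric function on ordered pairs. -/
def HasTri {n : ℕ} (f : Fin 6 × Fin n → Fin 6 × Fin n → Bool) (t : ℕ) : Prop :=
  ∃ a b c : Fin 6, a ≠ b ∧ a ≠ c ∧ b ≠ c ∧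
    ∃ A B C : Finset (Fin n), A.card = t ∧ B.card = t ∧ C.card = t ∧
      ∃ k : Bool, (∀ x ∈ A, ∀ y ∈ B, f (a, x) (b, y) = k) ∧
        (∀ x ∈ A, ∀ y ∈ C, f (a, x) (c, y) = k) ∧ (∀ x ∈ B, ∀ y ∈ C, f (b, x) (c, y) = k)

theorem assemble {n : ℕ} (f : Fin 6 × Fin n → Fin 6 × Fin n → Bool) (t : ℕ) (ht : 1 ≤ t)
    (hn : 64 * t ^ 2 * 8 ^ t ≤ n)
    (o a b c : Fin 6) (hoa : o ≠ a) (hob : o ≠ b) (hoc : o ≠ c) (hab : a ≠ b) (hac : a ≠ c)
    (hbc : b ≠ c) (k : Bool) (M W1 W2 W3 : Finset (Fin n)) (hM : M.card = t)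
    (h1 : ∀ x ∈ M, ∀ y ∈ W1, f (o, x) (a, y) = k)
    (h2 : ∀ x ∈ M, ∀ y ∈ W2, f (o, x) (b, y) = k)
    (h3 : ∀ x ∈ M, ∀ y ∈ W3, f (o, x) (c, y) = k)
    (h12 : W1.card ≤ W2.card) (h13 : W1.card ≤ W3.card)
    (hprod : ((n : ℝ)) ^ 3 ≤ 2 * 8 ^ t * ((W1.card : ℝ) * W2.card * W3.card)) :
    HasTri f t := by
  by_contra hno
  have hcard : ∀ W : Finset (Fin n), W.card ≤ n := fun W => by
    simpa using Finset.card_le_univ W
  obtain ⟨A, hA, B, hB, C, hC, hAt, hBt, hCt, hAB, hAC, hBC⟩ := core W1 W2 W3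
    (fun u v => f (a, u) (b, v)) (fun u v => f (a, u) (c, v)) (fun u v => f (b, u) (c, v))
    k t n ht hn h12 h13 (hcard _) (hcard _) hprod
    (by
      rintro ⟨A, hA, B, hB, hAt, hBt, hAB⟩
      exact hno ⟨o, a, b, hoa, hob, hab, M, A, B, hM, hAt, hBt, k,
        fun x hx y hy => h1 x hx y (hA hy), fun x hx y hy => h2 x hx y (hB hy), hAB⟩)
    (by
      rintro ⟨A, hA, B, hB, hAt, hBt, hAB⟩
      exact hno ⟨o, a, c, hoa, hoc, hac, M, A, B, hM, hAt, hBt, k,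
        fun x hx y hy => h1 x hx y (hA hy), fun x hx y hy => h3 x hx y (hB hy), hAB⟩)
    (by
      rintro ⟨A, hA, B, hB, hAt, hBt, hAB⟩
      exact hno ⟨o, b, c, hob, hoc, hbc, M, A, B, hM, hAt, hBt, k,
        fun x hx y hy => h2 x hx y (hA hy), fun x hx y hy => h3 x hx y (hB hy), hAB⟩)
  exact hno ⟨a, b, c, hab, hac, hbc, A, B, C, hAt, hBt, hCt, !k, hAB, hAC, hBC⟩

theorem tri_of_large {n : ℕ} (f : Fin 6 × Fin n → Fin 6 × Fin n → Bool) (t : ℕ) (ht : 1 ≤ t)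
    (hn : 64 * t ^ 2 * 8 ^ t ≤ n) : HasTri f t := by
  obtain ⟨i, j, l, k, M, hij, hil, hjl, hMt, hprod⟩ := step1 n t ht hn
    (fun r x y => f (Fin.last 5, x) (r.castSucc, y))
  have hne : ∀ r : Fin 5, (Fin.last 5 : Fin 6) ≠ r.castSucc := fun r => (Fin.castSucc_lt_last r).ne'
  have hne2 : ∀ r s : Fin 5, r ≠ s → (r.castSucc : Fin 6) ≠ s.castSucc := fun r s h h' =>
    h (Fin.castSucc_injective 5 h')
  have hmem : ∀ r : Fin 5, ∀ x ∈ M, ∀ y ∈ univ.filter (fun y : Fin n => ∀ x ∈ M,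
      f (Fin.last 5, x) (r.castSucc, y) = k), f (Fin.last 5, x) (r.castSucc, y) = k :=
    fun r x hx y hy => (Finset.mem_filter.mp hy).2 x hx
  generalize hW1 : univ.filter (fun y : Fin n => ∀ x ∈ M,
      f (Fin.last 5, x) (i.castSucc, y) = k) = W1 at hprod
  generalize hW2 : univ.filter (fun y : Fin n => ∀ x ∈ M,
      f (Fin.last 5, x) (j.castSucc, y) = k) = W2 at hprod
  generalize hW3 : univ.filter (fun y : Fin n => ∀ x ∈ M,
      f (Fin.last 5, x) (l.castSucc, y) = k) = W3 at hprod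
  have m1 := hmem i
  have m2 := hmem j
  have m3 := hmem l
  rw [hW1] at m1
  rw [hW2] at m2
  rw [hW3] at m3
  rcases le_total W1.card W2.card with h12 | h12
  · rcases le_total W1.card W3.card with h13 | h13
    · exact assemble f t ht hn _ _ _ _ (hne i) (hne j) (hne l) (hne2 _ _ hij) (hne2 _ _ hil)
        (hne2 _ _ hjl) k M W1 W2 W3 hMt m1 m2 m3 h12 h13 hprod
    · exact assemble f t ht hn _ _ _ _ (hne l) (hne i) (hne j) (hne2 _ _ hil.symm)
        (hne2 _ _ hjl.symm) (hne2 _ _ hij) k M W3 W1 W2 hMt m3 m1 m2 h13 (h13.trans h12)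
        (le_trans hprod (le_of_eq (by ring)))
  · rcases le_total W2.card W3.card with h23 | h23
    · exact assemble f t ht hn _ _ _ _ (hne j) (hne i) (hne l) (hne2 _ _ hij.symm)
        (hne2 _ _ hjl) (hne2 _ _ hil) k M W2 W1 W3 hMt m2 m1 m3 h12 h23
        (le_trans hprod (le_of_eq (by ring)))
    · exact assemble f t ht hn _ _ _ _ (hne l) (hne i) (hne j) (hne2 _ _ hil.symm)
        (hne2 _ _ hjl.symm) (hne2 _ _ hij) k M W3 W1 W2 hMt m3 m1 m2 (h23.trans h12) h23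
        (le_trans hprod (le_of_eq (by ring)))

theorem forces_of_large (n t : ℕ) (ht : 1 ≤ t) (hn : 64 * t ^ 2 * 8 ^ t ≤ n) : Forces n t := by
  classical
  intro χ
  obtain ⟨a, b, c, hab, hac, hbc, A, B, C, hA, hB, hC, k, h1, h2, h3⟩ := tri_of_large
    (n := n) (fun u v => if h : s(u, v) ∈ (K6blowup n).edgeSet then χ ⟨s(u, v), h⟩ else true)
    t ht hn
  refine ⟨a, b, c, hab, hac, hbc, A, B, C, hA, hB, hC, k, ?_, ?_, ?_⟩
  · intro x hx y hy h
    have := h1 x hx y hy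
    beta_reduce at this
    rwa [dif_pos h] at this
  · intro x hx y hy h
    have := h2 x hx y hy
    beta_reduce at this
    rwa [dif_pos h] at this
  · intro x hx y hy h
    have := h3 x hx y hy
    beta_reduce at this
    rwa [dif_pos h] at this

/-- `n(t) ≤ 64 t² 8ᵗ`; moreover every `n ≥ 64 t² 8ᵗ` has the Ramsey property. -/
theorem result (t : ℕ) (ht : 1 ≤ t) :
    (∀ n : ℕ, 64 * t ^ 2 * 8 ^ t ≤ n → Forces n t) ∧
    Forces (blowupRamsey t) t ∧ blowupRamsey t ≤ 64 * t ^ 2 * 8 ^ t := by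
  have h1 : (64 * t ^ 2 * 8 ^ t) ∈ {n : ℕ | 1 ≤ n ∧ Forces n t} := by
    refine ⟨?_, forces_of_large _ t ht le_rfl⟩
    exact Nat.mul_pos (Nat.mul_pos (by norm_num) (pow_pos ht 2)) (by positivity)
  refine ⟨fun n hn => forces_of_large n t ht hn, ?_, Nat.sInf_le h1⟩
  exact (Nat.sInf_mem ⟨_, h1⟩).2

end Pool.Agent.Results.MP_fce458_co.BaseEight
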